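import Pool.Agent.Helper96.EA.T5

/-!
# Project EA (MP_b6b996_nt), block T8: the lower bound of the measure of the thick points, almost surely
-/

set_option autoImplicit false

namespace Pool.Agent.Helper51.EA

open Finset Pool.Agent.Helper5.RM Pool.Agent.Helper5.RS MeasureTheory ProbabilityTheory

/-- disjoint intervals to the right of grid points -/
lemma vol_ge_cnt99 (G : ℕ) (hG : 0 < G) (P : ℝ → Prop) (h : ℝ) (hh : h ≤ 1 / G) (S : Set ℝ)
    (hS : ∀ y, P y → ∀ x, y < x → x < y + h → x ∈ S) :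
    ENNReal.ofReal ((cnt G P : ℝ) * h) ≤ volume S := by
  classical
  have hG0 : (0 : ℝ) < G := by exact_mod_cast hG
  obtain ⟨J, hJ⟩ : ∃ J : Finset ℕ, J = (range G).filter (fun j : ℕ => P ((j : ℝ) / G)) := ⟨_, rfl⟩
  have h1 : (⋃ j ∈ J, Set.Ioo ((j : ℝ) / G) ((j : ℝ) / G + h)) ⊆ S := by
    intro x hx
    simp only [Set.mem_iUnion] at hx
    obtain ⟨j, hj, hx1, hx2⟩ := hx
    rw [hJ, mem_filter] at hj
    exact hS _ hj.2 x hx1 hx2
  refine le_trans ?_ (measure_mono h1)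
  rw [measure_biUnion_finset]
  · have h2 : ∀ j : ℕ, volume (Set.Ioo ((j : ℝ) / G) ((j : ℝ) / G + h)) = ENNReal.ofReal h := by
      intro j
      rw [Real.volume_Ioo]
      congr 1
      ring
    rw [Finset.sum_congr rfl fun j _ => h2 j, Finset.sum_const, nsmul_eq_mul]
    have h3 : (J.card : ENNReal) = ENNReal.ofReal (cnt G P : ℝ) := by
      rw [ENNReal.ofReal_natCast, hJ]
      unfold cnt
      congr!
    rw [h3, ← ENNReal.ofReal_mul (by positivity)]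
  · have key : ∀ i j : ℕ, i < j → Disjoint (Set.Ioo ((i : ℝ) / G) ((i : ℝ) / G + h))
        (Set.Ioo ((j : ℝ) / G) ((j : ℝ) / G + h)) := by
      intro i j hij
      rw [Set.disjoint_left]
      rintro x ⟨_, hx2⟩ ⟨hx3, _⟩
      have h2 : (i : ℝ) + 1 ≤ j := by exact_mod_cast hij
      have h3 : ((i : ℝ) + 1) / G ≤ (j : ℝ) / G := div_le_div_of_nonneg_right h2 hG0.le
      rw [add_div] at h3
      linarith
    intro i _ j _ hij
    rcases lt_or_gt_of_ne hij with h2 | h2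
    · exact key i j h2
    · exact (key j i h2).symm
  · intro j _
    exact measurableSet_Ioo

/-- T8 from T7 and T4 -/
theorem thick_lower_of
    (hL : ∀ (δ r : ℝ), 0 < δ → 0 < r → r ≤ 1 → ∀ ω : ℂ, ‖ω‖ = 1 → ∀ a b : ℝ, 0 ≤ a → a < b → b ≤ 1 →
      ∃ (c : ℝ) (a0 : ℕ), 0 < c ∧ ∀ A : ℕ, a0 ≤ A →
      pr (PP (2 ^ (A + 1))) (fun T => ∃ N : ℕ, 2 ^ A ≤ N ∧ N ≤ 2 ^ (A + 1) ∧ ∀ N1 : ℕ, 2 ^ A ≤ N1 → N1 ≤ N →
        (cnt (4 * N1) (fun x => a < x ∧ x < b ∧ r * (1 - δ) * tg N ≤ (ω * SN N T x).re) : ℝ) < (N : ℝ) ^ (1 - r ^ 2 - δ)) ≤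
        ((2 : ℝ) ^ A) ^ (-c))
    (hslow : ∀ (N : ℕ) (c : ℕ → ℂ) (x y M : ℝ), (∀ n ≤ N, ‖∑ m ∈ Icc 1 n, c m * e (m * x)‖ ≤ M) →
      ‖∑ n ∈ Icc 1 N, c n * e (n * x) - ∑ n ∈ Icc 1 N, c n * e (n * y)‖ ≤ 4 * Real.pi * (N + 1) * |x - y| * M)
    {Ω : Type*} [MeasurableSpace Ω] (μ : Measure Ω) [IsProbabilityMeasure μ]
    (ε : Nat.Primes → Ω → ℝ) (hm : ∀ p, Measurable (ε p)) (hi : iIndepFun ε μ)
    (h2 : ∀ p, μ {ω | ε p ω = -1} = 1 / 2) (h1 : ∀ p, μ {ω | ε p ω = 1} = 1 / 2)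
    (hup : ∀ δ : ℝ, 0 < δ → ∀ᵐ ω ∂μ, ∃ N0 : ℕ, ∀ N : ℕ, N0 ≤ N → ∀ x : ℝ,
      ‖∑ n ∈ Finset.Icc 1 N, (rs (ext ε) ω n : ℂ) * e (n * x)‖ ≤ (1 + δ) * tg N)
    (δ r : ℝ) (hδ : 0 < δ) (hr0 : 0 < r) (hr1 : r ≤ 1) (w : ℂ) (hw : ‖w‖ = 1) (a b : ℝ) (ha : 0 ≤ a) (hab : a < b)
    (hb : b ≤ 1) :
    ∀ᵐ ω ∂μ, ∃ N0 : ℕ, ∀ N : ℕ, N0 ≤ N → (N : ℝ) ^ (-(r ^ 2) - δ) ≤ (volume {x : ℝ | a < x ∧ x < b ∧
      r * (1 - δ) * tg N ≤ (w * ∑ n ∈ Finset.Icc 1 N, (rs (ext ε) ω n : ℂ) * e (n * x)).re}).toReal := by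
  classical
  -- parameters
  obtain ⟨d, hd⟩ : ∃ d : ℝ, d = δ / 2 := ⟨_, rfl⟩
  have hd0 : 0 < d := by rw [hd]; positivity
  obtain ⟨b', hb'⟩ : ∃ b' : ℝ, b' = (a + b) / 2 := ⟨_, rfl⟩
  have hab' : a < b' := by rw [hb']; linarith
  have hbb' : b' < b := by rw [hb']; linarith
  obtain ⟨τ, hτ⟩ : ∃ τ : ℝ, τ = min (r * d / 64) (1 / 4) := ⟨_, rfl⟩
  have hτ0 : 0 < τ := by rw [hτ]; exact lt_min (by positivity) (by norm_num)
  have hτ1 : τ ≤ r * d / 64 := by rw [hτ]; exact min_le_left _ _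
  have hτ2 : τ ≤ 1 / 4 := by rw [hτ]; exact min_le_right _ _
  obtain ⟨c, i0, hc, hu⟩ := hL d r hd0 hr0 hr1 w hw a b' ha hab' (hbb'.le.trans hb)
  -- all values are signs
  have hsign : ∀ᵐ ω ∂μ, ∀ p, ε p ω = -1 ∨ ε p ω = 1 := by
    rw [ae_all_iff]
    intro p
    have hm1 : MeasurableSet {ω | ε p ω = -1} := hm p (measurableSet_singleton _)
    have hm2 : MeasurableSet {ω | ε p ω = 1} := hm p (measurableSet_singleton _)
    have hdis : Disjoint {ω | ε p ω = -1} {ω | ε p ω = 1} := by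
      rw [Set.disjoint_left]
      intro ω ha hb
      have ha' : ε p ω = -1 := ha
      have hb' : ε p ω = 1 := hb
      rw [ha'] at hb'
      norm_num at hb'
    have hu : μ ({ω | ε p ω = -1} ∪ {ω | ε p ω = 1}) = 1 := by
      rw [measure_union hdis hm2, h2 p, h1 p]
      exact ENNReal.add_halves 1
    have hu' := (mem_ae_iff_prob_eq_one (hm1.union hm2)).2 hu
    exact hu'
  -- the bad events
  let Q : ℕ → Finset ℕ → Prop := fun A T =>
    ∃ N : ℕ, 2 ^ A ≤ N ∧ N ≤ 2 ^ (A + 1) ∧ ∀ N1 : ℕ, 2 ^ A ≤ N1 → N1 ≤ N →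
      (cnt (4 * N1) (fun x => a < x ∧ x < b' ∧ r * (1 - d) * tg N ≤ (w * SN N T x).re) : ℝ) < (N : ℝ) ^ (1 - r ^ 2 - d)
  let s : ℕ → Set Ω := fun r => {ω | Q (r + i0) ((PP (2 ^ (r + i0 + 1))).filter (fun p => ext ε p ω = -1))}
  have hpow : ∀ n : ℕ, ((2 : ℝ) ^ n) ^ (-c) = ((2 : ℝ) ^ (-c)) ^ n := by
    intro n
    rw [← Real.rpow_natCast 2 n, ← Real.rpow_mul (by norm_num), mul_comm,
      Real.rpow_mul (by norm_num), Real.rpow_natCast]
  have hs : ∀ r, μ (s r) ≤ ENNReal.ofReal (((2 : ℝ) ^ (-c)) ^ (r + i0)) := by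
    intro r
    refine (meas_leP μ ε hm hi h2 (2 ^ (r + i0 + 1)) (Q (r + i0))).trans ?_
    apply ENNReal.ofReal_le_ofReal
    rw [← hpow]
    exact hu (r + i0) (by omega)
  have hsum : ∑' r, μ (s r) ≠ ⊤ := by
    have hc1 : (2 : ℝ) ^ (-c) < 1 := Real.rpow_lt_one_of_one_lt_of_neg (by norm_num) (by linarith)
    have hc0 : (0 : ℝ) ≤ (2 : ℝ) ^ (-c) := Real.rpow_nonneg (by norm_num) _
    have hsm : Summable (fun r : ℕ => ((2 : ℝ) ^ (-c)) ^ (r + i0)) :=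
      (summable_nat_add_iff i0).2 (summable_geometric_of_lt_one hc0 hc1)
    exact ne_top_of_le_ne_top hsm.tsum_ofReal_ne_top (ENNReal.tsum_le_tsum hs)
  have hbc := ae_eventually_notMem hsum
  filter_upwards [hsign, hbc, hup 1 one_pos] with ω hω' hev hupω
  have hω : ∀ p, ext ε p ω = -1 ∨ ext ε p ω = 1 := by
    intro p
    unfold Pool.Agent.Helper5.RM.ext
    split_ifs with h
    · exact hω' _
    · right; rfl
  obtain ⟨r0, hr0'⟩ := Filter.eventually_atTop.1 hev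
  obtain ⟨N1, hN1⟩ := hupω
  obtain ⟨N2, hN2⟩ := tg_large96 N1
  -- the partial sums
  have hcn : ∀ n, ‖(rs (ext ε) ω n : ℂ)‖ ≤ 1 := by
    intro n
    rw [Complex.norm_real, AS_rs_eq (ext ε) ω hω n n le_rfl]
    exact abs_rf_le _ _
  have hpart : ∀ N : ℕ, N2 ≤ N → ∀ x : ℝ, ∀ n ≤ N,
      ‖∑ m ∈ Icc 1 n, (rs (ext ε) ω m : ℂ) * e (m * x)‖ ≤ 2 * tg N := by
    intro N hN x n hn
    by_cases hn1 : N1 ≤ n
    · refine (hN1 n hn1 x).trans ?_
      have := tg_mono96 hn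
      linarith
    · have h3 : ‖∑ m ∈ Icc 1 n, (rs (ext ε) ω m : ℂ) * e (m * x)‖ ≤ n := by
        refine (norm_sum_le _ _).trans ?_
        calc ∑ m ∈ Icc 1 n, ‖(rs (ext ε) ω m : ℂ) * e (m * x)‖ ≤ ∑ m ∈ Icc 1 n, (1 : ℝ) := by
              refine Finset.sum_le_sum fun m _ => ?_
              rw [norm_mul, norm_e, mul_one]
              exact hcn m
          _ = n := by simp
      have h4 := hN2 N hN
      have h5 : (n : ℝ) ≤ N1 := by exact_mod_cast (not_le.1 hn1).le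
      have h6 : (0 : ℝ) ≤ N1 := by positivity
      linarith
  -- large `N`
  have htN : Filter.Tendsto (fun N : ℕ => (N : ℝ)) Filter.atTop Filter.atTop := tendsto_natCast_atTop_atTop
  have hp1 : ∀ᶠ N : ℕ in Filter.atTop, (N : ℝ) ^ (-d) ≤ τ :=
    ((tendsto_rpow_neg_atTop hd0).comp htN).eventually_le_const hτ0
  have hp2 : ∀ᶠ N : ℕ in Filter.atTop, (1 : ℝ) / (b - b') ≤ N := htN.eventually_ge_atTop _
  obtain ⟨N3, hN3⟩ := Filter.eventually_atTop.1 (hp1.and hp2)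
  refine ⟨max (2 ^ (r0 + i0)) (max N2 (max N3 2)), fun N hN => ?_⟩
  have hNa : 2 ^ (r0 + i0) ≤ N := le_trans (le_max_left _ _) hN
  have hNb : N2 ≤ N := le_trans (le_trans (le_max_left _ _) (le_max_right _ _)) hN
  have hNc : N3 ≤ N := le_trans (le_trans (le_trans (le_max_left _ _) (le_max_right _ _)) (le_max_right _ _)) hN
  have hNd : 2 ≤ N := le_trans (le_trans (le_trans (le_max_right _ _) (le_max_right _ _)) (le_max_right _ _)) hN
  obtain ⟨f1, f2⟩ := hN3 N hNc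
  have hN1' : 1 ≤ N := by omega
  obtain ⟨A, hA⟩ : ∃ A : ℕ, A = Nat.log 2 N := ⟨_, rfl⟩
  have hb1 : 2 ^ A ≤ N := by rw [hA]; exact Nat.pow_log_le_self 2 (by omega)
  have hb2 : N < 2 ^ (A + 1) := by rw [hA]; exact Nat.lt_pow_succ_log_self (by norm_num) N
  have ha0 : r0 + i0 ≤ A := by
    rw [hA]
    exact (Nat.le_log_iff_pow_le (by norm_num) (by omega)).2 hNa
  have hnot := hr0' (A - i0) (by omega)
  have hii : A - i0 + i0 = A := by omega
  have hnot' : ¬ Q A ((PP (2 ^ (A + 1))).filter (fun p => ext ε p ω = -1)) := by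
    rw [← hii]
    exact hnot
  obtain ⟨T, hT⟩ : ∃ T : Finset ℕ, T = (PP (2 ^ (A + 1))).filter (fun p => ext ε p ω = -1) := ⟨_, rfl⟩
  rw [← hT] at hnot'
  obtain ⟨M, hM1, hM2, hM3⟩ : ∃ M : ℕ, 2 ^ A ≤ M ∧ M ≤ N ∧ (N : ℝ) ^ (1 - r ^ 2 - d) ≤
      (cnt (4 * M) (fun x => a < x ∧ x < b' ∧ r * (1 - d) * tg N ≤ (w * SN N T x).re) : ℝ) := by
    by_contra hcon
    push Not at hcon
    exact hnot' ⟨N, hb1, hb2.le, hcon⟩
  have htg := tg_pos96 hNd
  have hN0r : (0 : ℝ) < N := by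
    have : 0 < N := by omega
    exact_mod_cast this
  have hN1r : (1 : ℝ) ≤ N := by exact_mod_cast hN1'
  have hMpos : 0 < M := lt_of_lt_of_le (by positivity) hM1
  have hM0 : (0 : ℝ) < M := by exact_mod_cast hMpos
  have hMN : (M : ℝ) ≤ N := by exact_mod_cast hM2
  have hseq : ∀ x : ℝ, ∑ n ∈ Finset.Icc 1 N, (rs (ext ε) ω n : ℂ) * e (n * x) = SN N T x := by
    intro x
    rw [hT]
    exact AS_sum_eq (ext ε) ω hω (2 ^ (A + 1)) N hb2.le x
  -- the intervals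
  have hvol := vol_ge_cnt99 (4 * M) (by omega)
    (fun x => a < x ∧ x < b' ∧ r * (1 - d) * tg N ≤ (w * SN N T x).re) (τ / N) (by
      push_cast
      rw [div_le_div_iff₀ hN0r (by positivity)]
      nlinarith)
    {x : ℝ | a < x ∧ x < b ∧ r * (1 - δ) * tg N ≤ (w * ∑ n ∈ Finset.Icc 1 N, (rs (ext ε) ω n : ℂ) * e (n * x)).re} (by
      rintro y ⟨hy1, hy2, hy3⟩ x hx1 hx2
      refine ⟨by linarith, ?_, ?_⟩
      · have h3 : τ / N ≤ b - b' := by
          have h4 : 0 < b - b' := by linarith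
          rw [div_le_iff₀ hN0r]
          rw [div_le_iff₀ h4] at f2
          linarith
        linarith
      · have hsl := hslow N (fun n => (rs (ext ε) ω n : ℂ)) x y (2 * tg N) (hpart N hNb x)
        have hxy : |x - y| ≤ τ / N := by
          rw [abs_of_pos (by linarith)]
          linarith
        have h3 : 4 * Real.pi * (N + 1) * |x - y| * (2 * tg N) ≤ r * d * tg N := by
          have hpi := Real.pi_lt_four
          have hpi0 := Real.pi_pos
          calc 4 * Real.pi * (N + 1) * |x - y| * (2 * tg N) ≤ 4 * 4 * (2 * N) * (τ / N) * (2 * tg N) := by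
                apply mul_le_mul_of_nonneg_right _ (by linarith)
                apply mul_le_mul _ hxy (abs_nonneg _) (by positivity)
                apply mul_le_mul _ _ (by positivity) (by positivity)
                · linarith
                · linarith
            _ = 64 * τ * tg N := by
                field_simp
                norm_num
            _ ≤ r * d * tg N := by
                apply mul_le_mul_of_nonneg_right _ htg.le
                linarith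
        rw [hseq, hseq] at hsl
        rw [hseq]
        have h4 : (w * SN N T y).re - (w * SN N T x).re ≤ r * d * tg N := by
          rw [← Complex.sub_re, ← mul_sub]
          refine (Complex.re_le_norm _).trans ?_
          rw [norm_mul, hw, one_mul, norm_sub_rev]
          exact hsl.trans h3
        have h5 : r * (1 - δ) * tg N = r * (1 - d) * tg N - r * d * tg N := by
          rw [hd]
          ring
        linarith)
  have hfin : volume {x : ℝ | a < x ∧ x < b ∧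
      r * (1 - δ) * tg N ≤ (w * ∑ n ∈ Finset.Icc 1 N, (rs (ext ε) ω n : ℂ) * e (n * x)).re} ≠ ⊤ := by
    have h3 : volume {x : ℝ | a < x ∧ x < b ∧
        r * (1 - δ) * tg N ≤ (w * ∑ n ∈ Finset.Icc 1 N, (rs (ext ε) ω n : ℂ) * e (n * x)).re} ≤ volume (Set.Ioo a b) :=
      measure_mono fun x hx => ⟨hx.1, hx.2.1⟩
    refine ne_top_of_le_ne_top ?_ h3
    rw [Real.volume_Ioo]
    exact ENNReal.ofReal_ne_top
  have h3 := (ENNReal.ofReal_le_iff_le_toReal hfin).1 hvol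
  refine le_trans ?_ h3
  calc (N : ℝ) ^ (-(r ^ 2) - δ) = (N : ℝ) ^ (1 - r ^ 2 - d) * ((N : ℝ) ^ (-d) / N) := by
        rw [show -(r ^ 2) - δ = (1 - r ^ 2 - d) + (-d - 1) by rw [hd]; ring, Real.rpow_add hN0r, Real.rpow_sub_one hN0r.ne']
    _ ≤ (cnt (4 * M) (fun x => a < x ∧ x < b' ∧ r * (1 - d) * tg N ≤ (w * SN N T x).re) : ℝ) * (τ / N) := by
        apply mul_le_mul hM3 _ (by positivity) (by positivity)
        exact div_le_div_of_nonneg_right f1 hN0r.le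

end Pool.Agent.Helper51.EA
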