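import Pool.Agent.Helper11.EA3.Defs3
import Pool.Agent.Helper96.EA.T5

/-!
# Project EA (MP_b6b996_nt), block V11: every arc carries all values of the smaller disc, almost surely
-/

set_option autoImplicit false

namespace Pool.Agent.Helper51.EA

open Finset Pool.Agent.Helper5.RM Pool.Agent.Helper5.RS MeasureTheory ProbabilityTheory

/-- disjoint intervals to the right of grid points, shifted by `s` -/
lemma vol_ge_cw99 (N m j0 : ℕ) (hN : 0 < N) (P : ℝ → Prop) (s h : ℝ) (hh : h ≤ 1 / (4 * N : ℕ)) (S : Set ℝ)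
    (hS : ∀ j : ℕ, j0 ≤ j → j < j0 + m → P ((j : ℝ) / (4 * N : ℕ)) → ∀ x : ℝ, (j : ℝ) / (4 * N : ℕ) + s < x →
      x < (j : ℝ) / (4 * N : ℕ) + s + h → x ∈ S) :
    ENNReal.ofReal ((cw N m j0 P : ℝ) * h) ≤ volume S := by
  classical
  have hG0 : (0 : ℝ) < (4 * N : ℕ) := by
    have : 0 < 4 * N := by omega
    exact_mod_cast this
  obtain ⟨G, hG⟩ : ∃ G : ℝ, G = ((4 * N : ℕ) : ℝ) := ⟨_, rfl⟩
  rw [← hG] at hG0 hh
  obtain ⟨J, hJ⟩ : ∃ J : Finset ℕ, J = (Ico j0 (j0 + m)).filter (fun j : ℕ => P ((j : ℝ) / (4 * N : ℕ))) := ⟨_, rfl⟩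
  have h1 : (⋃ j ∈ J, Set.Ioo ((j : ℝ) / G + s) ((j : ℝ) / G + s + h)) ⊆ S := by
    intro x hx
    simp only [Set.mem_iUnion] at hx
    obtain ⟨j, hj, hx1, hx2⟩ := hx
    rw [hJ, mem_filter, mem_Ico] at hj
    rw [hG] at hx1 hx2
    exact hS j hj.1.1 hj.1.2 hj.2 x hx1 hx2
  refine le_trans ?_ (measure_mono h1)
  rw [measure_biUnion_finset]
  · have h2 : ∀ j : ℕ, volume (Set.Ioo ((j : ℝ) / G + s) ((j : ℝ) / G + s + h)) = ENNReal.ofReal h := by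
      intro j
      rw [Real.volume_Ioo]
      congr 1
      ring
    rw [Finset.sum_congr rfl fun j _ => h2 j, Finset.sum_const, nsmul_eq_mul]
    have h3 : (J.card : ENNReal) = ENNReal.ofReal (cw N m j0 P : ℝ) := by
      rw [ENNReal.ofReal_natCast, hJ]
      unfold cw
      congr!
    rw [h3, ← ENNReal.ofReal_mul (by positivity)]
  · have key : ∀ i j : ℕ, i < j → Disjoint (Set.Ioo ((i : ℝ) / G + s) ((i : ℝ) / G + s + h))
        (Set.Ioo ((j : ℝ) / G + s) ((j : ℝ) / G + s + h)) := by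
      intro i j hij
      rw [Set.disjoint_left]
      rintro x ⟨_, hx2⟩ ⟨hx3, _⟩
      have h2 : (i : ℝ) + 1 ≤ j := by exact_mod_cast hij
      have h3 : ((i : ℝ) + 1) / G ≤ (j : ℝ) / G := div_le_div_of_nonneg_right h2 hG0.le
      rw [add_div] at h3
      linarith
    intro i _ j _ hij
    rcases lt_or_gt_of_ne hij with h2 | h2
    · exact key i j h2
    · exact (key j i h2).symm
  · intro j _
    exact measurableSet_Ioo

/-- V11 from V10 and T4 -/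
theorem arc_lower_of
    (hL : ∀ (κ δ : ℝ) (z : ℂ), 0 ≤ κ → 0 < δ → ‖z‖ ^ 2 < 1 - κ → ∃ (c : ℝ) (a0 : ℕ), 0 < c ∧ ∀ A : ℕ, a0 ≤ A →
      pr (PP (2 ^ (A + 1))) (fun T => ∃ N : ℕ, 2 ^ A ≤ N ∧ N ≤ 2 ^ (A + 1) ∧ ∀ N1 : ℕ, 2 ^ A ≤ N1 → N1 ≤ N →
        ∃ j0 : ℕ, j0 + mw N1 κ ≤ 4 * N1 ∧ (cw N1 (mw N1 κ) j0 (fun x => ‖SN N T x - z * (tg N : ℂ)‖ ≤ δ * tg N) : ℝ) <
          (N : ℝ) ^ (1 - κ - ‖z‖ ^ 2 - δ)) ≤ ((2 : ℝ) ^ A) ^ (-c))
    (hslow : ∀ (N : ℕ) (c : ℕ → ℂ) (x y M : ℝ), (∀ n ≤ N, ‖∑ m ∈ Icc 1 n, c m * e (m * x)‖ ≤ M) →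
      ‖∑ n ∈ Icc 1 N, c n * e (n * x) - ∑ n ∈ Icc 1 N, c n * e (n * y)‖ ≤ 4 * Real.pi * (N + 1) * |x - y| * M)
    {Ω : Type*} [MeasurableSpace Ω] (μ : Measure Ω) [IsProbabilityMeasure μ]
    (ε : Nat.Primes → Ω → ℝ) (hm : ∀ p, Measurable (ε p)) (hi : iIndepFun ε μ)
    (h2 : ∀ p, μ {ω | ε p ω = -1} = 1 / 2) (h1 : ∀ p, μ {ω | ε p ω = 1} = 1 / 2)
    (hup : ∀ δ : ℝ, 0 < δ → ∀ᵐ ω ∂μ, ∃ N0 : ℕ, ∀ N : ℕ, N0 ≤ N → ∀ x : ℝ,
      ‖∑ n ∈ Finset.Icc 1 N, (rs (ext ε) ω n : ℂ) * e (n * x)‖ ≤ (1 + δ) * tg N)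
    (κ δ : ℝ) (z : ℂ) (hκ0 : 0 ≤ κ) (hδ : 0 < δ) (hz : ‖z‖ ^ 2 < 1 - κ) :
    ∀ᵐ ω ∂μ, ∃ N0 : ℕ, ∀ N : ℕ, N0 ≤ N → ∀ a : ℝ, (N : ℝ) ^ (-κ - ‖z‖ ^ 2 - δ) ≤
      (volume {x : ℝ | a ≤ x ∧ x ≤ a + (N : ℝ) ^ (-κ) ∧
        ‖∑ n ∈ Finset.Icc 1 N, (rs (ext ε) ω n : ℂ) * e (n * x) - z * (tg N : ℂ)‖ ≤ δ * tg N}).toReal := by
  classical
  -- parameters
  obtain ⟨d, hd⟩ : ∃ d : ℝ, d = δ / 4 := ⟨_, rfl⟩
  have hd0 : 0 < d := by rw [hd]; positivity
  obtain ⟨κ', hκ'⟩ : ∃ κ' : ℝ, κ' = κ + min d ((1 - κ - ‖z‖ ^ 2) / 2) := ⟨_, rfl⟩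
  have hmin0 : 0 < min d ((1 - κ - ‖z‖ ^ 2) / 2) := lt_min hd0 (by linarith)
  have hκκ : κ < κ' := by rw [hκ']; linarith
  have hκd : κ' ≤ κ + d := by
    rw [hκ']
    have := min_le_left d ((1 - κ - ‖z‖ ^ 2) / 2)
    linarith
  have hz' : ‖z‖ ^ 2 < 1 - κ' := by
    rw [hκ']
    have := min_le_right d ((1 - κ - ‖z‖ ^ 2) / 2)
    linarith
  have hz0 : 0 ≤ ‖z‖ ^ 2 := by positivity
  have hκ'1 : κ' < 1 := by linarith
  have hκ1 : κ < 1 := by linarith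
  obtain ⟨τ, hτ⟩ : ∃ τ : ℝ, τ = min (d / 64) (1 / 4) := ⟨_, rfl⟩
  have hτ0 : 0 < τ := by rw [hτ]; exact lt_min (by positivity) (by norm_num)
  have hτ1 : τ ≤ d / 64 := by rw [hτ]; exact min_le_left _ _
  have hτ2 : τ ≤ 1 / 4 := by rw [hτ]; exact min_le_right _ _
  obtain ⟨c, i0, hc, hu⟩ := hL κ' d z (by linarith) hd0 hz'
  -- all values are signs
  have hsign : ∀ᵐ ω ∂μ, ∀ p, ε p ω = -1 ∨ ε p ω = 1 := by
    rw [ae_all_iff]
    intro p
    have hm1 : MeasurableSet {ω | ε p ω = -1} := hm p (measurableSet_singleton _)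
    have hm2 : MeasurableSet {ω | ε p ω = 1} := hm p (measurableSet_singleton _)
    have hdis : Disjoint {ω | ε p ω = -1} {ω | ε p ω = 1} := by
      rw [Set.disjoint_left]
      intro ω ha hb
      have ha' : ε p ω = -1 := ha
      have hb' : ε p ω = 1 := hb
      rw [ha'] at hb'
      norm_num at hb'
    have hu : μ ({ω | ε p ω = -1} ∪ {ω | ε p ω = 1}) = 1 := by
      rw [measure_union hdis hm2, h2 p, h1 p]
      exact ENNReal.add_halves 1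
    have hu' := (mem_ae_iff_prob_eq_one (hm1.union hm2)).2 hu
    exact hu'
  -- the bad events
  let Q : ℕ → Finset ℕ → Prop := fun A T =>
    ∃ N : ℕ, 2 ^ A ≤ N ∧ N ≤ 2 ^ (A + 1) ∧ ∀ N1 : ℕ, 2 ^ A ≤ N1 → N1 ≤ N →
      ∃ j0 : ℕ, j0 + mw N1 κ' ≤ 4 * N1 ∧ (cw N1 (mw N1 κ') j0 (fun x => ‖SN N T x - z * (tg N : ℂ)‖ ≤ d * tg N) : ℝ) <
        (N : ℝ) ^ (1 - κ' - ‖z‖ ^ 2 - d)
  let s : ℕ → Set Ω := fun r => {ω | Q (r + i0) ((PP (2 ^ (r + i0 + 1))).filter (fun p => ext ε p ω = -1))}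
  have hpow : ∀ n : ℕ, ((2 : ℝ) ^ n) ^ (-c) = ((2 : ℝ) ^ (-c)) ^ n := by
    intro n
    rw [← Real.rpow_natCast 2 n, ← Real.rpow_mul (by norm_num), mul_comm,
      Real.rpow_mul (by norm_num), Real.rpow_natCast]
  have hs : ∀ r, μ (s r) ≤ ENNReal.ofReal (((2 : ℝ) ^ (-c)) ^ (r + i0)) := by
    intro r
    refine (meas_leP μ ε hm hi h2 (2 ^ (r + i0 + 1)) (Q (r + i0))).trans ?_
    apply ENNReal.ofReal_le_ofReal
    rw [← hpow]
    exact hu (r + i0) (by omega)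
  have hsum : ∑' r, μ (s r) ≠ ⊤ := by
    have hc1 : (2 : ℝ) ^ (-c) < 1 := Real.rpow_lt_one_of_one_lt_of_neg (by norm_num) (by linarith)
    have hc0 : (0 : ℝ) ≤ (2 : ℝ) ^ (-c) := Real.rpow_nonneg (by norm_num) _
    have hsm : Summable (fun r : ℕ => ((2 : ℝ) ^ (-c)) ^ (r + i0)) :=
      (summable_nat_add_iff i0).2 (summable_geometric_of_lt_one hc0 hc1)
    exact ne_top_of_le_ne_top hsm.tsum_ofReal_ne_top (ENNReal.tsum_le_tsum hs)
  have hbc := ae_eventually_notMem hsum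
  filter_upwards [hsign, hbc, hup 1 one_pos] with ω hω' hev hupω
  have hω : ∀ p, ext ε p ω = -1 ∨ ext ε p ω = 1 := by
    intro p
    unfold Pool.Agent.Helper5.RM.ext
    split_ifs with h
    · exact hω' _
    · right; rfl
  obtain ⟨r0, hr0'⟩ := Filter.eventually_atTop.1 hev
  obtain ⟨N1, hN1⟩ := hupω
  obtain ⟨N2, hN2⟩ := tg_large96 N1
  -- the partial sums
  have hcn : ∀ n, ‖(rs (ext ε) ω n : ℂ)‖ ≤ 1 := by
    intro n
    rw [Complex.norm_real, AS_rs_eq (ext ε) ω hω n n le_rfl]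
    exact abs_rf_le _ _
  have hpart : ∀ N : ℕ, N2 ≤ N → ∀ x : ℝ, ∀ n ≤ N,
      ‖∑ m ∈ Icc 1 n, (rs (ext ε) ω m : ℂ) * e (m * x)‖ ≤ 2 * tg N := by
    intro N hN x n hn
    by_cases hn1 : N1 ≤ n
    · refine (hN1 n hn1 x).trans ?_
      have := tg_mono96 hn
      linarith
    · have h3 : ‖∑ m ∈ Icc 1 n, (rs (ext ε) ω m : ℂ) * e (m * x)‖ ≤ n := by
        refine (norm_sum_le _ _).trans ?_
        calc ∑ m ∈ Icc 1 n, ‖(rs (ext ε) ω m : ℂ) * e (m * x)‖ ≤ ∑ m ∈ Icc 1 n, (1 : ℝ) := by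
              refine Finset.sum_le_sum fun m _ => ?_
              rw [norm_mul, norm_e, mul_one]
              exact hcn m
          _ = n := by simp
      have h4 := hN2 N hN
      have h5 : (n : ℝ) ≤ N1 := by exact_mod_cast (not_le.1 hn1).le
      have h6 : (0 : ℝ) ≤ N1 := by positivity
      linarith
  -- large `N`
  have htN : Filter.Tendsto (fun N : ℕ => (N : ℝ)) Filter.atTop Filter.atTop := tendsto_natCast_atTop_atTop
  have hp1 : ∀ᶠ N : ℕ in Filter.atTop, (N : ℝ) ^ (-d) ≤ τ :=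
    ((tendsto_rpow_neg_atTop hd0).comp htN).eventually_le_const hτ0
  have hp2 : ∀ᶠ N : ℕ in Filter.atTop, 3 ≤ (N : ℝ) ^ (κ' - κ) :=
    ((tendsto_rpow_atTop (by linarith : (0 : ℝ) < κ' - κ)).comp htN).eventually_ge_atTop 3
  obtain ⟨N3, hN3⟩ := Filter.eventually_atTop.1 hp1
  obtain ⟨N4, hN4⟩ := Filter.eventually_atTop.1 hp2
  refine ⟨max (2 ^ (r0 + i0)) (max N2 (max N3 (max (2 * N4) 2))), fun N hN a => ?_⟩
  have hNa : 2 ^ (r0 + i0) ≤ N := le_trans (le_max_left _ _) hN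
  have hN' : max N2 (max N3 (max (2 * N4) 2)) ≤ N := le_trans (le_max_right _ _) hN
  have hNb : N2 ≤ N := le_trans (le_max_left _ _) hN'
  have hN'' : max N3 (max (2 * N4) 2) ≤ N := le_trans (le_max_right _ _) hN'
  have hNc : N3 ≤ N := le_trans (le_max_left _ _) hN''
  have hN''' : max (2 * N4) 2 ≤ N := le_trans (le_max_right _ _) hN''
  have hNe : 2 * N4 ≤ N := le_trans (le_max_left _ _) hN'''
  have hNd : 2 ≤ N := le_trans (le_max_right _ _) hN'''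
  have f1 := hN3 N hNc
  have hN1' : 1 ≤ N := by omega
  obtain ⟨A, hA⟩ : ∃ A : ℕ, A = Nat.log 2 N := ⟨_, rfl⟩
  have hb1 : 2 ^ A ≤ N := by rw [hA]; exact Nat.pow_log_le_self 2 (by omega)
  have hb2 : N < 2 ^ (A + 1) := by rw [hA]; exact Nat.lt_pow_succ_log_self (by norm_num) N
  have ha0 : r0 + i0 ≤ A := by
    rw [hA]
    exact (Nat.le_log_iff_pow_le (by norm_num) (by omega)).2 hNa
  have hnot := hr0' (A - i0) (by omega)
  have hii : A - i0 + i0 = A := by omega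
  have hnot' : ¬ Q A ((PP (2 ^ (A + 1))).filter (fun p => ext ε p ω = -1)) := by
    rw [← hii]
    exact hnot
  obtain ⟨T, hT⟩ : ∃ T : Finset ℕ, T = (PP (2 ^ (A + 1))).filter (fun p => ext ε p ω = -1) := ⟨_, rfl⟩
  rw [← hT] at hnot'
  obtain ⟨M, hM1, hM2, hM3⟩ : ∃ M : ℕ, 2 ^ A ≤ M ∧ M ≤ N ∧ ∀ j0 : ℕ, j0 + mw M κ' ≤ 4 * M →
      (N : ℝ) ^ (1 - κ' - ‖z‖ ^ 2 - d) ≤
      (cw M (mw M κ') j0 (fun x => ‖SN N T x - z * (tg N : ℂ)‖ ≤ d * tg N) : ℝ) := by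
    by_contra hcon
    push Not at hcon
    exact hnot' ⟨N, hb1, hb2.le, hcon⟩
  have htg := tg_pos96 hNd
  have hN0r : (0 : ℝ) < N := by
    have : 0 < N := by omega
    exact_mod_cast this
  have hN1r : (1 : ℝ) ≤ N := by exact_mod_cast hN1'
  have hMpos : 0 < M := lt_of_lt_of_le (by positivity) hM1
  have hM0 : (0 : ℝ) < M := by exact_mod_cast hMpos
  have hM1r : (1 : ℝ) ≤ M := by exact_mod_cast hMpos
  have hMN : (M : ℝ) ≤ N := by exact_mod_cast hM2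
  have hN2M : N ≤ 2 * M := by
    rw [pow_succ] at hb2
    omega
  have hN2Mr : (N : ℝ) ≤ 2 * M := by exact_mod_cast hN2M
  have f2 := hN4 M (by omega)
  have hseq : ∀ x : ℝ, ∑ n ∈ Finset.Icc 1 N, (rs (ext ε) ω n : ℂ) * e (n * x) = SN N T x := by
    intro x
    rw [hT]
    exact AS_sum_eq (ext ε) ω hω (2 ^ (A + 1)) N hb2.le x
  -- the function is periodic
  have hper : ∀ (x : ℝ) (m : ℤ), SN N T (x + m) = SN N T x := by
    intro x m
    rw [← hseq, ← hseq]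
    refine Finset.sum_congr rfl fun n _ => ?_
    congr 1
    rw [mul_add, e_add]
    have h3 : ((n : ℝ) * (m : ℝ)) = (((n : ℤ) * m : ℤ) : ℝ) := by push_cast; ring
    rw [h3, e_int, mul_one]
  -- the length
  obtain ⟨L, hLdef⟩ : ∃ L : ℝ, L = (N : ℝ) ^ (-κ) := ⟨_, rfl⟩
  have hL0 : 0 < L := by rw [hLdef]; positivity
  have hL1 : L ≤ 1 := by
    rw [hLdef]
    exact Real.rpow_le_one_of_one_le_of_nonpos hN1r (by linarith)
  have hML : 2 + (M : ℝ) ^ (1 - κ') ≤ 2 * M * L := by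
    have h3 : (1 : ℝ) ≤ (M : ℝ) ^ (1 - κ') := Real.one_le_rpow hM1r (by linarith)
    have h4 : (M : ℝ) ^ (1 - κ) = (M : ℝ) ^ (1 - κ') * (M : ℝ) ^ (κ' - κ) := by
      rw [← Real.rpow_add hM0]
      congr 1
      ring
    have h5 : 3 * (M : ℝ) ^ (1 - κ') ≤ (M : ℝ) ^ (1 - κ) := by
      rw [h4]
      nlinarith
    have h6 : (M : ℝ) ^ (1 - κ) ≤ 2 * M * L := by
      have h7 : (2 * (M : ℝ)) ^ (-κ) ≤ L := by
        rw [hLdef]
        exact Real.rpow_le_rpow_of_nonpos hN0r hN2Mr (by linarith)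
      have h8 : (1 : ℝ) / 2 ≤ (2 : ℝ) ^ (-κ) := by
        have : (2 : ℝ) ^ (-1 : ℝ) ≤ (2 : ℝ) ^ (-κ) := Real.rpow_le_rpow_of_exponent_le (by norm_num) (by linarith)
        rw [Real.rpow_neg_one] at this
        linarith
      have h9 : (M : ℝ) ^ (1 - κ) = M * (M : ℝ) ^ (-κ) := by
        rw [sub_eq_add_neg, Real.rpow_add hM0, Real.rpow_one]
      rw [Real.mul_rpow (by norm_num) hM0.le] at h7
      have h10 : 0 < (M : ℝ) ^ (-κ) := by positivity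
      rw [h9]
      calc (M : ℝ) * (M : ℝ) ^ (-κ) = 2 * M * (1 / 2 * (M : ℝ) ^ (-κ)) := by ring
        _ ≤ 2 * M * (2 ^ (-κ) * (M : ℝ) ^ (-κ)) := by gcongr
        _ ≤ 2 * M * L := by gcongr
    linarith
  have hmw : ((mw M κ' : ℕ) : ℝ) ≤ (M : ℝ) ^ (1 - κ') := by
    unfold mw
    exact Nat.floor_le (by positivity)
  -- a piece of the arc in the unit interval
  obtain ⟨b, m, hb0, hb1', hba, hbL⟩ : ∃ (b : ℝ) (m : ℤ), 0 ≤ b ∧ b + L / 2 ≤ 1 ∧ a ≤ b + m ∧ b + m + L / 2 ≤ a + L := by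
    by_cases h3 : Int.fract a + L / 2 ≤ 1
    · refine ⟨Int.fract a, ⌊a⌋, Int.fract_nonneg a, h3, ?_, ?_⟩
      · rw [Int.fract_add_floor]
      · rw [Int.fract_add_floor]
        linarith
    · refine ⟨0, ⌊a⌋ + 1, le_rfl, by linarith, ?_, ?_⟩
      · push_cast
        have := Int.lt_floor_add_one a
        linarith
      · push_cast
        have h4 := Int.fract_add_floor a
        push Not at h3
        linarith
  obtain ⟨j0, hj0⟩ : ∃ j0 : ℕ, j0 = ⌈4 * (M : ℝ) * b⌉₊ := ⟨_, rfl⟩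
  have hj1 : 4 * (M : ℝ) * b ≤ j0 := by rw [hj0]; exact Nat.le_ceil _
  have hj2 : (j0 : ℝ) < 4 * (M : ℝ) * b + 1 := by rw [hj0]; exact Nat.ceil_lt_add_one (by positivity)
  have hjw : j0 + mw M κ' ≤ 4 * M := by
    have h3 : ((j0 + mw M κ' : ℕ) : ℝ) ≤ ((4 * M : ℕ) : ℝ) := by
      push_cast
      have h4 : 4 * (M : ℝ) * (b + L / 2) ≤ 4 * M * 1 := by gcongr
      have h5 : 4 * (M : ℝ) * (b + L / 2) = 4 * (M : ℝ) * b + 2 * M * L := by ring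
      linarith
    exact_mod_cast h3
  have hcnt := hM3 j0 hjw
  obtain ⟨P, hP⟩ : ∃ P : ℝ → Prop, P = (fun x : ℝ => ‖SN N T x - z * (tg N : ℂ)‖ ≤ d * tg N) := ⟨_, rfl⟩
  rw [← hP] at hcnt
  have h4M : (0 : ℝ) < 4 * M := by positivity
  have hG : ((4 * M : ℕ) : ℝ) = 4 * M := by push_cast; ring
  have hτN : τ / N ≤ 1 / (4 * M) := by
    rw [div_le_div_iff₀ hN0r h4M]
    nlinarith
  -- the intervals
  have hvol := vol_ge_cw99 M (mw M κ') j0 hMpos P m (τ / N) (by rw [hG]; exact hτN)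
    {x : ℝ | a ≤ x ∧ x ≤ a + (N : ℝ) ^ (-κ) ∧
      ‖∑ n ∈ Finset.Icc 1 N, (rs (ext ε) ω n : ℂ) * e (n * x) - z * (tg N : ℂ)‖ ≤ δ * tg N} (by
      intro j hj3 hj4 hy x hx1 hx2
      rw [hG] at hy hx1 hx2
      obtain ⟨y, hydef⟩ : ∃ y : ℝ, y = (j : ℝ) / (4 * M) := ⟨_, rfl⟩
      rw [← hydef] at hy hx1 hx2
      rw [hP] at hy
      have hy' : ‖SN N T y - z * (tg N : ℂ)‖ ≤ d * tg N := hy
      have hyb : b ≤ y := by
        rw [hydef, le_div_iff₀ h4M]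
        have : (j0 : ℝ) ≤ j := by exact_mod_cast hj3
        linarith
      have hyb2 : y + 1 / (4 * M) ≤ b + L / 2 := by
        rw [hydef, ← add_div, div_le_iff₀ h4M]
        have h3 : (j : ℝ) + 1 ≤ ((j0 + mw M κ' : ℕ) : ℝ) := by exact_mod_cast hj4
        push_cast at h3
        have h5 : (b + L / 2) * (4 * (M : ℝ)) = 4 * (M : ℝ) * b + 2 * M * L := by ring
        linarith
      refine ⟨by linarith, ?_, ?_⟩
      · rw [← hLdef]
        linarith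
      · have hsl := hslow N (fun n => (rs (ext ε) ω n : ℂ)) x (y + m) (2 * tg N) (hpart N hNb x)
        have hxy : |x - (y + m)| ≤ τ / N := by
          rw [abs_of_pos (by linarith)]
          linarith
        have h3 : 4 * Real.pi * (N + 1) * |x - (y + m)| * (2 * tg N) ≤ d * tg N := by
          have hpi := Real.pi_lt_four
          have hpi0 := Real.pi_pos
          calc 4 * Real.pi * (N + 1) * |x - (y + m)| * (2 * tg N) ≤ 4 * 4 * (2 * N) * (τ / N) * (2 * tg N) := by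
                apply mul_le_mul_of_nonneg_right _ (by linarith)
                apply mul_le_mul _ hxy (abs_nonneg _) (by positivity)
                apply mul_le_mul _ _ (by positivity) (by positivity)
                · linarith
                · linarith
            _ = 64 * τ * tg N := by
                field_simp
                norm_num
            _ ≤ d * tg N := by
                apply mul_le_mul_of_nonneg_right _ htg.le
                linarith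
        rw [hseq, hseq, hper y m] at hsl
        rw [hseq]
        have h4 : SN N T x - z * (tg N : ℂ) = (SN N T x - SN N T y) + (SN N T y - z * (tg N : ℂ)) := by ring
        rw [h4]
        refine (norm_add_le _ _).trans ?_
        have h5 : δ * tg N = d * tg N + d * tg N + 2 * d * tg N := by
          rw [hd]
          ring
        have h6 : 0 ≤ 2 * d * tg N := by positivity
        linarith [hsl.trans h3])
  have hfin : volume {x : ℝ | a ≤ x ∧ x ≤ a + (N : ℝ) ^ (-κ) ∧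
      ‖∑ n ∈ Finset.Icc 1 N, (rs (ext ε) ω n : ℂ) * e (n * x) - z * (tg N : ℂ)‖ ≤ δ * tg N} ≠ ⊤ := by
    have h3 : volume {x : ℝ | a ≤ x ∧ x ≤ a + (N : ℝ) ^ (-κ) ∧
        ‖∑ n ∈ Finset.Icc 1 N, (rs (ext ε) ω n : ℂ) * e (n * x) - z * (tg N : ℂ)‖ ≤ δ * tg N} ≤
        volume (Set.Icc a (a + (N : ℝ) ^ (-κ))) :=
      measure_mono fun x hx => ⟨hx.1, hx.2.1⟩
    refine ne_top_of_le_ne_top ?_ h3
    rw [Real.volume_Icc]
    exact ENNReal.ofReal_ne_top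
  have h3 := (ENNReal.ofReal_le_iff_le_toReal hfin).1 hvol
  refine le_trans ?_ h3
  calc (N : ℝ) ^ (-κ - ‖z‖ ^ 2 - δ) ≤ (N : ℝ) ^ ((1 - κ' - ‖z‖ ^ 2 - d) + (-d - 1)) := by
        apply Real.rpow_le_rpow_of_exponent_le hN1r
        rw [hd] at hκd ⊢
        linarith
    _ = (N : ℝ) ^ (1 - κ' - ‖z‖ ^ 2 - d) * ((N : ℝ) ^ (-d) / N) := by
        rw [Real.rpow_add hN0r, Real.rpow_sub_one hN0r.ne']
    _ ≤ (cw M (mw M κ') j0 P : ℝ) * (τ / N) := by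
        apply mul_le_mul hcnt _ (by positivity) (by positivity)
        exact div_le_div_of_nonneg_right f1 hN0r.le

end Pool.Agent.Helper51.EA
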