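import Pool.Agent.Helper11.EA.LdpAS
import Pool.Agent.Helper11.EA3.Defs3

/-!
# Project EA (MP_b6b996_nt), part 3, block V13: the final deduction at every scale
-/

set_option autoImplicit false

namespace Pool.Agent.Helper11.EA

open MeasureTheory Filter Topology Set Pool.Agent.Helper51.EA

/-- one of `m` intervals of `[0, 1)` has at most the average -/
lemma avg99 (S : Set ℝ) (m : ℕ) (hm : 0 < m) : ∃ i < m,
    volume.real {x : ℝ | x ∈ Ico ((i : ℝ) / m) (((i : ℝ) + 1) / m) ∧ x ∈ S} ≤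
      volume.real {x : ℝ | x ∈ Icc (0 : ℝ) 1 ∧ x ∈ S} / m := by
  by_contra hcon
  push Not at hcon
  have hm0 : (0 : ℝ) < m := by exact_mod_cast hm
  obtain ⟨T, hT⟩ : ∃ T : Set ℝ, T = {x : ℝ | x ∈ Icc (0 : ℝ) 1 ∧ x ∈ S} := ⟨_, rfl⟩
  rw [← hT] at hcon
  have hTfin : volume T ≠ ⊤ := by
    rw [hT]
    exact ((measure_mono (fun x hx => hx.1)).trans_lt (by simp : volume (Icc (0 : ℝ) 1) < ⊤)).ne
  have : IsFiniteMeasure (volume.restrict T) := ⟨by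
    rw [Measure.restrict_apply_univ]; exact lt_top_iff_ne_top.2 hTfin⟩
  have h1 : ∑ i ∈ Finset.range m, volume.real {x : ℝ | x ∈ Ico ((i : ℝ) / m) (((i : ℝ) + 1) / m) ∧ x ∈ S} ≤
      volume.real T := by
    have e1 : ∀ i ∈ Finset.range m, volume.real {x : ℝ | x ∈ Ico ((i : ℝ) / m) (((i : ℝ) + 1) / m) ∧ x ∈ S} =
        (volume.restrict T).real (Ico ((i : ℝ) / m) (((i : ℝ) + 1) / m)) := by
      intro i hi
      rw [Finset.mem_range] at hi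
      have hi1 : (i : ℝ) + 1 ≤ m := by exact_mod_cast hi
      rw [measureReal_def, measureReal_def, Measure.restrict_apply measurableSet_Ico]
      congr 2
      ext x
      rw [hT]
      simp only [mem_setOf_eq, mem_inter_iff]
      constructor
      · rintro ⟨hx1, hx2⟩
        refine ⟨hx1, ⟨le_trans (by positivity) hx1.1, hx1.2.le.trans ?_⟩, hx2⟩
        rw [div_le_one hm0]
        exact hi1
      · rintro ⟨hx1, _, hx2⟩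
        exact ⟨hx1, hx2⟩
    rw [Finset.sum_congr rfl e1, ← measureReal_biUnion_finset]
    · refine (measureReal_mono (subset_univ _)).trans ?_
      rw [measureReal_def, Measure.restrict_apply_univ, measureReal_def]
    · have key : ∀ i j : ℕ, i < j → Disjoint (Ico ((i : ℝ) / m) (((i : ℝ) + 1) / m))
          (Ico ((j : ℝ) / m) (((j : ℝ) + 1) / m)) := by
        intro i j hij
        rw [Set.disjoint_left]
        rintro x ⟨_, hx2⟩ ⟨hx3, _⟩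
        have h2 : (i : ℝ) + 1 ≤ j := by exact_mod_cast hij
        have h3 : ((i : ℝ) + 1) / m ≤ (j : ℝ) / m := div_le_div_of_nonneg_right h2 hm0.le
        linarith
      intro i _ j _ hij
      rcases lt_or_gt_of_ne hij with h2 | h2
      · exact key i j h2
      · exact (key j i h2).symm
    · intro i _
      exact measurableSet_Ico
  have h2 : ∑ i ∈ Finset.range m, volume.real T / m <
      ∑ i ∈ Finset.range m, volume.real {x : ℝ | x ∈ Ico ((i : ℝ) / m) (((i : ℝ) + 1) / m) ∧ x ∈ S} := by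
    refine Finset.sum_lt_sum_of_nonempty ?_ fun i hi => hcon i (Finset.mem_range.1 hi)
    exact ⟨0, Finset.mem_range.2 hm⟩
  rw [Finset.sum_const, Finset.card_range, nsmul_eq_mul, mul_div_cancel₀ _ hm0.ne'] at h2
  linarith

/-- lower bound in every arc, for all discs -/
theorem loA99 (F : ℕ → ℝ → ℂ)
    (hL : ∀ (κ δ : ℚ) (n : ℕ), 0 ≤ κ → 0 < δ → ‖(TopologicalSpace.denseSeq ℂ n)‖ ^ 2 < 1 - κ → ∃ N0 : ℕ, ∀ N : ℕ, N0 ≤ N →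
      ∀ a : ℝ, (N : ℝ) ^ (-(κ : ℝ) - ‖(TopologicalSpace.denseSeq ℂ n)‖ ^ 2 - δ) ≤
        (volume {x : ℝ | a ≤ x ∧ x ≤ a + (N : ℝ) ^ (-(κ : ℝ)) ∧
          ‖F N x - (TopologicalSpace.denseSeq ℂ n) * (tg N : ℂ)‖ ≤ δ * tg N}).toReal)
    (κ : ℝ) (hκ0 : 0 ≤ κ) (hκ1 : κ < 1) (z : ℂ) (hz : ‖z‖ < Real.sqrt (1 - κ) * rd) (ε η : ℝ) (hε : 0 < ε) (hη : 0 < η) :
    ∃ N0 : ℕ, ∀ N : ℕ, N0 ≤ N → ∀ a : ℝ, (N : ℝ) ^ (-κ - ‖z‖ ^ 2 / rd ^ 2 - η) ≤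
      volume.real {x : ℝ | a ≤ x ∧ x ≤ a + (N : ℝ) ^ (-κ) ∧ ‖nrm F N x - z‖ < ε} := by
  have hrd := rd_pos
  -- the normalised point
  obtain ⟨w, hw⟩ : ∃ w : ℂ, w = z / (rd : ℂ) := ⟨_, rfl⟩
  have hwz : z = w * (rd : ℂ) := by
    rw [hw, div_mul_cancel₀]
    exact_mod_cast hrd.ne'
  have hwn : ‖w‖ = ‖z‖ / rd := by
    rw [hw, norm_div, Complex.norm_real, Real.norm_of_nonneg hrd.le]
  have hw2 : ‖z‖ ^ 2 / rd ^ 2 = ‖w‖ ^ 2 := by rw [hwn, div_pow]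
  have hw3 : ‖w‖ ^ 2 < 1 - κ := by
    have h1 : ‖w‖ < Real.sqrt (1 - κ) := by
      rw [hwn, div_lt_iff₀ hrd]; exact hz
    have h2 : ‖w‖ ^ 2 < Real.sqrt (1 - κ) ^ 2 := pow_lt_pow_left₀ h1 (norm_nonneg _) (by norm_num)
    rwa [Real.sq_sqrt (by linarith)] at h2
  rw [hw2]
  obtain ⟨g, hg⟩ : ∃ g : ℝ, g = min (η / 3) ((1 - κ - ‖w‖ ^ 2) / 3) := ⟨_, rfl⟩
  have hg0 : 0 < g := by rw [hg]; exact lt_min (by linarith) (by linarith)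
  have hg1 : g ≤ η / 3 := by rw [hg]; exact min_le_left _ _
  have hg2 : g ≤ (1 - κ - ‖w‖ ^ 2) / 3 := by rw [hg]; exact min_le_right _ _
  -- the rational exponent
  obtain ⟨κ', hκa, hκb⟩ := exists_rat_btwn (show κ < κ + g by linarith)
  -- the point of the dense sequence
  obtain ⟨t, ht0, ht⟩ : ∃ t : ℝ, 0 < t ∧ ∀ w' : ℂ, dist w' w < t → ‖w'‖ ^ 2 < ‖w‖ ^ 2 + g := by
    have hcont : Tendsto (fun w' : ℂ => ‖w'‖ ^ 2) (𝓝 w) (𝓝 (‖w‖ ^ 2)) := (continuous_norm.pow 2).tendsto w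
    have h1 := hcont.eventually (gt_mem_nhds (show ‖w‖ ^ 2 < ‖w‖ ^ 2 + g by linarith))
    obtain ⟨δ, hδ, h2⟩ := Metric.eventually_nhds_iff.1 h1
    exact ⟨δ, hδ, fun w' hw' => h2 hw'⟩
  obtain ⟨n, hn⟩ := (TopologicalSpace.denseRange_denseSeq ℂ).exists_dist_lt w
    (show (0 : ℝ) < min t (ε / (2 * rd)) from lt_min ht0 (by positivity))
  obtain ⟨v, hv⟩ : ∃ v : ℂ, v = TopologicalSpace.denseSeq ℂ n := ⟨_, rfl⟩
  rw [← hv] at hn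
  have hn1 : ‖v‖ ^ 2 < ‖w‖ ^ 2 + g := ht v (by rw [dist_comm]; exact hn.trans_le (min_le_left _ _))
  have hn2 : ‖v - w‖ < ε / (2 * rd) := by
    rw [← dist_eq_norm, dist_comm]; exact hn.trans_le (min_le_right _ _)
  -- the rational error
  obtain ⟨δ, hδa, hδb⟩ := exists_rat_btwn (show (0 : ℝ) < min g (ε / (2 * rd)) from lt_min hg0 (by positivity))
  have hδ1 : (δ : ℝ) < g := hδb.trans_le (min_le_left _ _)
  have hδ2 : (δ : ℝ) < ε / (2 * rd) := hδb.trans_le (min_le_right _ _)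
  obtain ⟨N0, h1⟩ := hL κ' δ n (by
    have : (0 : ℝ) ≤ κ' := hκ0.trans hκa.le
    exact_mod_cast this) (by exact_mod_cast hδa) (by rw [← hv]; linarith)
  rw [← hv] at h1
  refine ⟨max N0 2, fun N hN a => ?_⟩
  simp only [max_le_iff] at hN
  have hN1 : (1 : ℝ) ≤ N := by exact_mod_cast (by omega : 1 ≤ N)
  have hn := nrm_pos hN.2
  have hexp : (N : ℝ) ^ (-κ - ‖w‖ ^ 2 - η) ≤ (N : ℝ) ^ (-(κ' : ℝ) - ‖v‖ ^ 2 - δ) := by
    refine Real.rpow_le_rpow_of_exponent_le hN1 ?_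
    linarith
  have harc : (N : ℝ) ^ (-(κ' : ℝ)) ≤ (N : ℝ) ^ (-κ) := by
    refine Real.rpow_le_rpow_of_exponent_le hN1 ?_
    linarith
  refine hexp.trans ((h1 N hN.1 a).trans ?_)
  refine measureReal_mono ?_ ?_
  · rintro x ⟨hx1, hx2, hx3⟩
    refine ⟨hx1, hx2.trans (by linarith), ?_⟩
    have e1 : nrm F N x - v * (rd : ℂ) = (F N x - v * (tg N : ℂ)) / (Real.sqrt (N * Real.log N) : ℝ) := by
      unfold nrm
      rw [tg_eq, sub_div]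
      congr 1
      rw [eq_div_iff (by exact_mod_cast hn.ne')]
      push_cast
      ring
    have e2 : ‖nrm F N x - v * (rd : ℂ)‖ ≤ δ * rd := by
      rw [e1, norm_div, Complex.norm_real, Real.norm_of_nonneg hn.le, div_le_iff₀ hn]
      refine hx3.trans (le_of_eq ?_)
      rw [tg_eq]
      ring
    have e3 : ‖v * (rd : ℂ) - z‖ < ε / 2 := by
      rw [hwz, ← sub_mul, norm_mul, Complex.norm_real, Real.norm_of_nonneg hrd.le]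
      calc ‖v - w‖ * rd < ε / (2 * rd) * rd := mul_lt_mul_of_pos_right hn2 hrd
        _ = ε / 2 := by field_simp
    have e4 : (δ : ℝ) * rd < ε / 2 := by
      calc (δ : ℝ) * rd < ε / (2 * rd) * rd := mul_lt_mul_of_pos_right hδ2 hrd
        _ = ε / 2 := by field_simp
    calc ‖nrm F N x - z‖ = ‖(nrm F N x - v * (rd : ℂ)) + (v * (rd : ℂ) - z)‖ := by congr 1; ring
      _ ≤ ‖nrm F N x - v * (rd : ℂ)‖ + ‖v * (rd : ℂ) - z‖ := norm_add_le _ _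
      _ < ε := by linarith
  · refine ((measure_mono (fun x hx => ?_)).trans_lt (by simp : volume (Icc a (a + (N : ℝ) ^ (-κ))) < ⊤)).ne
    exact ⟨hx.1, hx.2.1⟩

/-- upper bound in some arc -/
theorem upA99 (G : ℕ → ℝ → ℂ) (hU : UpB rd G) (κ : ℝ) (hκ0 : 0 ≤ κ) (d η : ℝ) (hd0 : 0 ≤ d)
    (hd : d < rd) (hη : 0 < η) : ∃ N0 : ℕ, ∀ N : ℕ, N0 ≤ N → ∃ a : ℝ,
    volume.real {x : ℝ | a ≤ x ∧ x ≤ a + (N : ℝ) ^ (-κ) ∧ d ≤ ‖G N x‖} ≤ (N : ℝ) ^ (-κ - d ^ 2 / rd ^ 2 + η) := by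
  obtain ⟨N1, h1⟩ := hU d (η / 2) hd0 hd (by positivity)
  obtain ⟨N2, h2⟩ := ev_half (a := η / 2) (by positivity)
  refine ⟨max N1 (max N2 1), fun N hN => ?_⟩
  simp only [max_le_iff] at hN
  obtain ⟨n1, n2, n3⟩ := hN
  have hN0 : (0 : ℝ) < N := by exact_mod_cast (by omega : 0 < N)
  have hN1 : (1 : ℝ) ≤ N := by exact_mod_cast n3
  have k1 := h1 N n1
  have k2 := h2 N n2
  obtain ⟨m, hm⟩ : ∃ m : ℕ, m = ⌊(N : ℝ) ^ κ⌋₊ := ⟨_, rfl⟩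
  have hNκ : 1 ≤ (N : ℝ) ^ κ := Real.one_le_rpow hN1 hκ0
  have hm1 : 1 ≤ m := by
    rw [hm]; exact Nat.le_floor (by exact_mod_cast hNκ)
  have hm1r : (1 : ℝ) ≤ m := by exact_mod_cast hm1
  have hm2 : (m : ℝ) ≤ (N : ℝ) ^ κ := by rw [hm]; exact Nat.floor_le (by positivity)
  have hm3 : (N : ℝ) ^ κ < m + 1 := by rw [hm]; exact Nat.lt_floor_add_one _
  have hm4 : (N : ℝ) ^ κ ≤ 2 * m := by linarith
  obtain ⟨i, hi, h3⟩ := avg99 {x : ℝ | d ≤ ‖G N x‖} m (by omega)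
  have harc : (N : ℝ) ^ (-κ) ≤ 1 / m := by
    rw [Real.rpow_neg hN0.le, inv_eq_one_div]
    exact one_div_le_one_div_of_le (by linarith) hm2
  refine ⟨(i : ℝ) / m, ?_⟩
  have hsub : {x : ℝ | (i : ℝ) / m ≤ x ∧ x ≤ (i : ℝ) / m + (N : ℝ) ^ (-κ) ∧ d ≤ ‖G N x‖} ⊆
      {x : ℝ | x ∈ Ico ((i : ℝ) / m) (((i : ℝ) + 1) / m) ∧ x ∈ {x : ℝ | d ≤ ‖G N x‖}} ∪ {((i : ℝ) + 1) / m} := by
    rintro x ⟨hx1, hx2, hx3⟩
    have h4 : x ≤ ((i : ℝ) + 1) / m := by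
      rw [add_div]; linarith
    rcases eq_or_lt_of_le h4 with h | h
    · exact Or.inr h
    · exact Or.inl ⟨⟨hx1, h⟩, hx3⟩
  have h4 : volume.real {x : ℝ | (i : ℝ) / m ≤ x ∧ x ≤ (i : ℝ) / m + (N : ℝ) ^ (-κ) ∧ d ≤ ‖G N x‖} ≤
      volume.real {x : ℝ | x ∈ Ico ((i : ℝ) / m) (((i : ℝ) + 1) / m) ∧ x ∈ {x : ℝ | d ≤ ‖G N x‖}} +
        volume.real {((i : ℝ) + 1) / m} := by
    refine (measureReal_mono hsub ?_).trans (measureReal_union_le _ _)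
    refine ((measure_mono (union_subset (fun x hx => ?_) (fun x hx => ?_))).trans_lt
      (by simp : volume (Icc ((i : ℝ) / m) (((i : ℝ) + 1) / m)) < ⊤)).ne
    · exact ⟨hx.1.1, hx.1.2.le⟩
    · rw [mem_singleton_iff] at hx
      rw [hx]
      refine ⟨?_, le_rfl⟩
      exact div_le_div_of_nonneg_right (by linarith) (by positivity)
  have h5 : volume.real {((i : ℝ) + 1) / m} = 0 := by simp [Measure.real]
  rw [h5, add_zero] at h4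
  have h6 : volume.real {x : ℝ | x ∈ Icc (0 : ℝ) 1 ∧ x ∈ {x : ℝ | d ≤ ‖G N x‖}} / m ≤
      (N : ℝ) ^ (-(d ^ 2 / rd ^ 2) + η / 2) / m := by
    refine div_le_div_of_nonneg_right ?_ (by positivity)
    exact k1
  have h7 : (N : ℝ) ^ (-(d ^ 2 / rd ^ 2) + η / 2) / m ≤ 2 * (N : ℝ) ^ (-κ - d ^ 2 / rd ^ 2 + η / 2) := by
    have e1 : (-κ - d ^ 2 / rd ^ 2 + η / 2) = (-(d ^ 2 / rd ^ 2) + η / 2) + -κ := by ring
    rw [e1, Real.rpow_add hN0 _ (-κ), Real.rpow_neg hN0.le κ, div_le_iff₀ (by linarith)]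
    have h8 : 0 < (N : ℝ) ^ (-(d ^ 2 / rd ^ 2) + η / 2) := by positivity
    have h9 : 1 ≤ 2 * ((N : ℝ) ^ κ)⁻¹ * m := by
      rw [mul_assoc, mul_comm ((N : ℝ) ^ κ)⁻¹, ← mul_assoc, ← div_eq_mul_inv, le_div_iff₀ (by linarith)]
      linarith
    nlinarith
  have h8 : 2 * (N : ℝ) ^ (-κ - d ^ 2 / rd ^ 2 + η / 2) ≤ (N : ℝ) ^ (-κ - d ^ 2 / rd ^ 2 + η) := by
    have e1 : (-κ - d ^ 2 / rd ^ 2 + η / 2) = (-κ - d ^ 2 / rd ^ 2 + η) + -(η / 2) := by ring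
    rw [e1, Real.rpow_add hN0 _ (-(η / 2))]
    have h9 : 0 < (N : ℝ) ^ (-κ - d ^ 2 / rd ^ 2 + η) := by positivity
    nlinarith
  linarith

/-- one `ω` -/
theorem scale99 (F : ℕ → ℝ → ℂ)
    (hU : ∀ δ r : ℚ, 0 < δ → 0 < r → r ≤ 1 → ∃ N0 : ℕ, ∀ N : ℕ, N0 ≤ N →
      (volume {x : ℝ | x ∈ Set.Ico (0 : ℝ) 1 ∧ (r : ℝ) * (1 + δ) * tg N ≤ ‖F N x‖}).toReal ≤
        (N : ℝ) ^ (-((r : ℝ) ^ 2) + δ))
    (hM : ∀ δ : ℚ, 0 < δ → ∃ N0 : ℕ, ∀ N : ℕ, N0 ≤ N → ∀ x : ℝ, ‖F N x‖ ≤ (1 + δ) * tg N)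
    (hL : ∀ (κ δ : ℚ) (n : ℕ), 0 ≤ κ → 0 < δ → ‖(TopologicalSpace.denseSeq ℂ n)‖ ^ 2 < 1 - κ → ∃ N0 : ℕ, ∀ N : ℕ, N0 ≤ N →
      ∀ a : ℝ, (N : ℝ) ^ (-(κ : ℝ) - ‖(TopologicalSpace.denseSeq ℂ n)‖ ^ 2 - δ) ≤
        (volume {x : ℝ | a ≤ x ∧ x ≤ a + (N : ℝ) ^ (-(κ : ℝ)) ∧
          ‖F N x - (TopologicalSpace.denseSeq ℂ n) * (tg N : ℂ)‖ ≤ δ * tg N}).toReal)
    (hA : ∀ κ δ r : ℚ, 0 ≤ κ → κ < 1 → 0 < δ → 0 < r → r ≤ 1 → 1 - κ < r ^ 2 → ∃ N0 : ℕ, ∀ N : ℕ, N0 ≤ N →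
      ∃ a : ℝ, ∀ x : ℝ, a ≤ x → x ≤ a + (N : ℝ) ^ (-(κ : ℝ)) → ‖F N x‖ < (r : ℝ) * (1 + δ) * tg N)
    (κ : ℝ) (hκ0 : 0 ≤ κ) (hκ1 : κ < 1) (O : Set ℂ) (hO : IsOpen O) :
      ((∃ z ∈ O, ‖z‖ < Real.sqrt (1 - κ) * rd) → Tendsto (fun N : ℕ =>
        Real.log (⨅ a : ℝ, (volume {x : ℝ | a ≤ x ∧ x ≤ a + (N : ℝ) ^ (-κ) ∧ nrm F N x ∈ O}).toReal) / Real.log N)
        atTop (𝓝 (-κ - Real.pi ^ 2 / 6 * (Metric.infDist 0 O) ^ 2))) ∧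
      (Real.sqrt (1 - κ) * rd < Metric.infDist 0 O → ∀ᶠ N : ℕ in atTop, ∃ a : ℝ, ∀ x : ℝ, a ≤ x → x ≤ a + (N : ℝ) ^ (-κ) →
        nrm F N x ∉ O) := by
  have hrd := rd_pos
  have hUB := upB_of F hU
  have hEB := emB_of F hM
  have hdist : ∀ z ∈ O, Metric.infDist 0 O ≤ ‖z‖ := fun z hz => by
    have := Metric.infDist_le_dist_of_mem (x := (0 : ℂ)) hz
    rwa [dist_zero_left] at this
  have hpi : Real.pi ^ 2 / 6 * (Metric.infDist (0 : ℂ) O) ^ 2 = (Metric.infDist (0 : ℂ) O) ^ 2 / rd ^ 2 := by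
    rw [rd_sq]
    have := Real.pi_pos
    field_simp
  rw [hpi]
  obtain ⟨d, hd⟩ : ∃ d, d = Metric.infDist (0 : ℂ) O := ⟨_, rfl⟩
  rw [← hd] at hdist ⊢
  have hd0 : 0 ≤ d := by rw [hd]; exact Metric.infDist_nonneg
  obtain ⟨R, hR⟩ : ∃ R : ℝ, R = Real.sqrt (1 - κ) * rd := ⟨_, rfl⟩
  have hRrd : R ≤ rd := by
    rw [hR]
    have h1 : Real.sqrt (1 - κ) ≤ 1 := Real.sqrt_le_one.2 (by linarith)
    nlinarith
  rw [← hR]
  constructor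
  · rintro ⟨z0, hz0, hz0r⟩
    have hdr : d < R := lt_of_le_of_lt (hdist z0 hz0) hz0r
    rw [Metric.tendsto_atTop]
    intro η hη
    -- a point of `O` of almost minimal norm
    obtain ⟨z, hz, hzr, hzd⟩ : ∃ z ∈ O, ‖z‖ < R ∧ ‖z‖ ^ 2 / rd ^ 2 < d ^ 2 / rd ^ 2 + η / 4 := by
      have hcont : Tendsto (fun s : ℝ => s ^ 2 / rd ^ 2) (𝓝 d) (𝓝 (d ^ 2 / rd ^ 2)) :=
        (((continuous_pow 2).div_const _).tendsto d)
      have h1 := hcont.eventually (gt_mem_nhds (show d ^ 2 / rd ^ 2 < d ^ 2 / rd ^ 2 + η / 4 by linarith))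
      obtain ⟨δ, hδ, h2⟩ := Metric.eventually_nhds_iff.1 h1
      have h3 : d < min R (d + δ) := lt_min hdr (by linarith)
      have h4 : Metric.infDist (0 : ℂ) O < min R (d + δ) := by rw [← hd]; exact h3
      obtain ⟨z, hz, h5⟩ := (Metric.infDist_lt_iff ⟨z0, hz0⟩).1 h4
      rw [dist_zero_left] at h5
      refine ⟨z, hz, h5.trans_le (min_le_left _ _), ?_⟩
      refine h2 ?_
      rw [Real.dist_eq, abs_lt]
      have h6 := hdist z hz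
      have h7 := h5.trans_le (min_le_right _ _)
      constructor <;> linarith
    obtain ⟨ε, hε, hball⟩ := Metric.isOpen_iff.1 hO z hz
    obtain ⟨N1, h1⟩ := loA99 F hL κ hκ0 hκ1 z (by rw [← hR]; exact hzr) ε (η / 4) hε (by positivity)
    obtain ⟨N2, h2⟩ := upA99 (nrm F) hUB κ hκ0 d (η / 2) hd0 (hdr.trans_le hRrd) (by positivity)
    refine ⟨max N1 (max N2 2), fun N hN => ?_⟩
    simp only [ge_iff_le, max_le_iff] at hN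
    obtain ⟨n1, n2, n3⟩ := hN
    have hN0 : (0 : ℝ) < N := by exact_mod_cast (by omega : 0 < N)
    have hL0 : 0 < Real.log N := Real.log_pos (by exact_mod_cast (by omega : 1 < N))
    have k1 := h1 N n1
    obtain ⟨a, k2⟩ := h2 N n2
    have hfin : ∀ (b : ℝ) (s : Set ℝ), s ⊆ Icc b (b + (N : ℝ) ^ (-κ)) → volume s ≠ ⊤ := fun b s hs =>
      ((measure_mono hs).trans_lt (by simp)).ne
    obtain ⟨m, hm⟩ : ∃ m : ℝ, m = ⨅ a : ℝ, (volume {x : ℝ | a ≤ x ∧ x ≤ a + (N : ℝ) ^ (-κ) ∧ nrm F N x ∈ O}).toReal :=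
      ⟨_, rfl⟩
    rw [← hm]
    have k5 : (N : ℝ) ^ (-κ - ‖z‖ ^ 2 / rd ^ 2 - η / 4) ≤ m := by
      rw [hm]
      refine le_ciInf fun b => (k1 b).trans ?_
      refine measureReal_mono (fun x hx => ⟨hx.1, hx.2.1, hball ?_⟩) (hfin b _ fun x hx => ⟨hx.1, hx.2.1⟩)
      rw [Metric.mem_ball, dist_eq_norm]
      exact hx.2.2
    have k6 : m ≤ (N : ℝ) ^ (-κ - d ^ 2 / rd ^ 2 + η / 2) := by
      rw [hm]
      refine (ciInf_le ⟨0, ?_⟩ a).trans (le_trans ?_ k2)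
      · rintro y ⟨b, rfl⟩
        exact ENNReal.toReal_nonneg
      · exact measureReal_mono (fun x hx => ⟨hx.1, hx.2.1, hdist _ hx.2.2⟩) (hfin a _ fun x hx => ⟨hx.1, hx.2.1⟩)
    have hm0 : 0 < m := lt_of_lt_of_le (by positivity) k5
    have l1 : (-κ - ‖z‖ ^ 2 / rd ^ 2 - η / 4) * Real.log N ≤ Real.log m := by
      rw [← Real.log_rpow hN0]
      exact Real.log_le_log (by positivity) k5
    have l2 : Real.log m ≤ (-κ - d ^ 2 / rd ^ 2 + η / 2) * Real.log N := by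
      rw [← Real.log_rpow hN0]
      exact Real.log_le_log hm0 k6
    have l3 : -κ - ‖z‖ ^ 2 / rd ^ 2 - η / 4 ≤ Real.log m / Real.log N := by rwa [le_div_iff₀ hL0]
    have l4 : Real.log m / Real.log N ≤ -κ - d ^ 2 / rd ^ 2 + η / 2 := by rwa [div_le_iff₀ hL0]
    rw [Real.dist_eq, abs_lt]
    constructor <;> linarith
  · intro h
    rcases eq_or_lt_of_le hκ0 with h0 | h0
    · -- the whole line
      have hR1 : R = rd := by rw [hR, ← h0]; simp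
      rw [hR1] at h
      obtain ⟨N0, h1⟩ := hEB d h
      filter_upwards [eventually_ge_atTop N0] with N hN
      exact ⟨0, fun x _ _ hx => absurd (hdist _ hx) (not_le.2 (h1 N hN x))⟩
    · -- a smaller exponent
      obtain ⟨t, ht0, ht⟩ : ∃ t : ℝ, 0 < t ∧ ∀ s : ℝ, dist s κ < t → Real.sqrt (1 - s) * rd < d := by
        have hcont : Tendsto (fun s : ℝ => Real.sqrt (1 - s) * rd) (𝓝 κ) (𝓝 (Real.sqrt (1 - κ) * rd)) :=
          ((Real.continuous_sqrt.comp (continuous_const.sub continuous_id)).mul continuous_const).tendsto κ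
        rw [← hR] at hcont
        have h1 := hcont.eventually (gt_mem_nhds h)
        obtain ⟨δ, hδ, h2⟩ := Metric.eventually_nhds_iff.1 h1
        exact ⟨δ, hδ, fun w' hw' => h2 hw'⟩
      obtain ⟨κ', hκa, hκb⟩ := exists_rat_btwn (show max (κ - t) 0 < κ from max_lt (by linarith) h0)
      have hκa1 : κ - t < κ' := (le_max_left _ _).trans_lt hκa
      have hκa2 : (0 : ℝ) < κ' := (le_max_right _ _).trans_lt hκa
      have h2 : Real.sqrt (1 - κ') * rd < d := ht κ' (by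
        rw [Real.dist_eq, abs_lt]; constructor <;> linarith)
      have h3 : Real.sqrt (1 - κ') < 1 := by
        rw [Real.sqrt_lt' one_pos]; linarith
      obtain ⟨r, hra, hrb⟩ := exists_rat_btwn (show Real.sqrt (1 - κ') < min 1 (d / rd) from
        lt_min h3 (by rw [lt_div_iff₀ hrd]; exact h2))
      have hr1 : (r : ℝ) < 1 := hrb.trans_le (min_le_left _ _)
      have hr2 : (r : ℝ) < d / rd := hrb.trans_le (min_le_right _ _)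
      have hr0 : (0 : ℝ) < r := lt_of_le_of_lt (Real.sqrt_nonneg _) hra
      have hr3 : 1 - (κ' : ℝ) < (r : ℝ) ^ 2 := by
        have h4 : Real.sqrt (1 - κ') ^ 2 < (r : ℝ) ^ 2 := pow_lt_pow_left₀ hra (Real.sqrt_nonneg _) (by norm_num)
        rwa [Real.sq_sqrt (by linarith)] at h4
      obtain ⟨δ, hδa, hδb⟩ := exists_rat_btwn (show (0 : ℝ) < d / rd / r - 1 by
        rw [lt_sub_iff_add_lt, zero_add, lt_div_iff₀ hr0]; linarith)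
      have hδ1 : (r : ℝ) * (1 + δ) * rd ≤ d := by
        have h4 : 1 + (δ : ℝ) ≤ d / rd / r := by linarith
        rw [le_div_iff₀ hr0, le_div_iff₀ hrd] at h4
        linarith
      obtain ⟨N0, h5⟩ := hA κ' δ r (by exact_mod_cast hκa2.le) (by
        have : (κ' : ℝ) < 1 := by linarith
        exact_mod_cast this) (by exact_mod_cast hδa) (by exact_mod_cast hr0) (by exact_mod_cast hr1.le)
        (by exact_mod_cast hr3)
      filter_upwards [eventually_ge_atTop (max N0 2)] with N hN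
      simp only [max_le_iff] at hN
      have hN1 : (1 : ℝ) ≤ N := by exact_mod_cast (by omega : 1 ≤ N)
      have hn := nrm_pos hN.2
      obtain ⟨a, h6⟩ := h5 N hN.1
      refine ⟨a, fun x hx1 hx2 hx3 => ?_⟩
      have harc : (N : ℝ) ^ (-κ) ≤ (N : ℝ) ^ (-(κ' : ℝ)) := by
        refine Real.rpow_le_rpow_of_exponent_le hN1 ?_
        linarith
      have h7 := h6 x hx1 (by linarith)
      have h8 : ‖nrm F N x‖ < d := by
        rw [norm_nrm, div_lt_iff₀ hn]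
        refine h7.trans_le ?_
        rw [tg_eq, ← mul_assoc]
        exact mul_le_mul_of_nonneg_right hδ1 hn.le
      exact absurd (hdist _ hx3) (not_le.2 h8)

/-- V13 -/
theorem every_scale_of {Ω : Type*} [MeasurableSpace Ω] (μ : Measure Ω) (F : Ω → ℕ → ℝ → ℂ) (hFc : ∀ ω N, Continuous (F ω N))
    (hU : ∀ δ r : ℝ, 0 < δ → 0 < r → r ≤ 1 → ∀ᵐ ω ∂μ, ∃ N0 : ℕ, ∀ N : ℕ, N0 ≤ N →
      (volume {x : ℝ | x ∈ Set.Ico (0 : ℝ) 1 ∧ r * (1 + δ) * tg N ≤ ‖F ω N x‖}).toReal ≤ (N : ℝ) ^ (-(r ^ 2) + δ))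
    (hM : ∀ δ : ℝ, 0 < δ → ∀ᵐ ω ∂μ, ∃ N0 : ℕ, ∀ N : ℕ, N0 ≤ N → ∀ x : ℝ, ‖F ω N x‖ ≤ (1 + δ) * tg N)
    (hL : ∀ (κ δ : ℝ) (z : ℂ), 0 ≤ κ → 0 < δ → ‖z‖ ^ 2 < 1 - κ → ∀ᵐ ω ∂μ, ∃ N0 : ℕ, ∀ N : ℕ, N0 ≤ N → ∀ a : ℝ,
      (N : ℝ) ^ (-κ - ‖z‖ ^ 2 - δ) ≤
        (volume {x : ℝ | a ≤ x ∧ x ≤ a + (N : ℝ) ^ (-κ) ∧ ‖F ω N x - z * (tg N : ℂ)‖ ≤ δ * tg N}).toReal)
    (hA : ∀ κ δ r : ℝ, 0 ≤ κ → κ < 1 → 0 < δ → 0 < r → r ≤ 1 → 1 - κ < r ^ 2 → ∀ᵐ ω ∂μ, ∃ N0 : ℕ, ∀ N : ℕ, N0 ≤ N →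
      ∃ a : ℝ, ∀ x : ℝ, a ≤ x → x ≤ a + (N : ℝ) ^ (-κ) → ‖F ω N x‖ < r * (1 + δ) * tg N) :
    ∀ᵐ ω ∂μ, ∀ κ : ℝ, 0 ≤ κ → κ < 1 → ∀ O : Set ℂ, IsOpen O →
      ((∃ z ∈ O, ‖z‖ < Real.sqrt (1 - κ) * rd) → Tendsto (fun N : ℕ =>
        Real.log (⨅ a : ℝ, (volume {x : ℝ | a ≤ x ∧ x ≤ a + (N : ℝ) ^ (-κ) ∧ nrm (F ω) N x ∈ O}).toReal) / Real.log N)
        atTop (𝓝 (-κ - Real.pi ^ 2 / 6 * (Metric.infDist 0 O) ^ 2))) ∧
      (Real.sqrt (1 - κ) * rd < Metric.infDist 0 O → ∀ᶠ N : ℕ in atTop, ∃ a : ℝ, ∀ x : ℝ, a ≤ x → x ≤ a + (N : ℝ) ^ (-κ) →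
        nrm (F ω) N x ∉ O) := by
  have h1 : ∀ᵐ ω ∂μ, ∀ δ r : ℚ, 0 < δ → 0 < r → r ≤ 1 → ∃ N0 : ℕ, ∀ N : ℕ, N0 ≤ N →
      (volume {x : ℝ | x ∈ Set.Ico (0 : ℝ) 1 ∧ (r : ℝ) * (1 + δ) * tg N ≤ ‖F ω N x‖}).toReal ≤
        (N : ℝ) ^ (-((r : ℝ) ^ 2) + δ) := by
    rw [ae_all_iff]; intro δ
    rw [ae_all_iff]; intro r
    simp only [eventually_imp_distrib_left]
    intro g1 g2 g3
    exact hU δ r (by exact_mod_cast g1) (by exact_mod_cast g2) (by exact_mod_cast g3)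
  have h2 : ∀ᵐ ω ∂μ, ∀ δ : ℚ, 0 < δ → ∃ N0 : ℕ, ∀ N : ℕ, N0 ≤ N → ∀ x : ℝ, ‖F ω N x‖ ≤ (1 + δ) * tg N := by
    rw [ae_all_iff]; intro δ
    simp only [eventually_imp_distrib_left]
    intro g1
    exact hM δ (by exact_mod_cast g1)
  have h3 : ∀ᵐ ω ∂μ, ∀ (κ δ : ℚ) (n : ℕ), 0 ≤ κ → 0 < δ → ‖(TopologicalSpace.denseSeq ℂ n)‖ ^ 2 < 1 - κ → ∃ N0 : ℕ,
      ∀ N : ℕ, N0 ≤ N → ∀ a : ℝ, (N : ℝ) ^ (-(κ : ℝ) - ‖(TopologicalSpace.denseSeq ℂ n)‖ ^ 2 - δ) ≤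
        (volume {x : ℝ | a ≤ x ∧ x ≤ a + (N : ℝ) ^ (-(κ : ℝ)) ∧
          ‖F ω N x - (TopologicalSpace.denseSeq ℂ n) * (tg N : ℂ)‖ ≤ δ * tg N}).toReal := by
    rw [ae_all_iff]; intro κ
    rw [ae_all_iff]; intro δ
    rw [ae_all_iff]; intro n
    simp only [eventually_imp_distrib_left]
    intro g1 g2 g3
    exact hL κ δ _ (by exact_mod_cast g1) (by exact_mod_cast g2) g3
  have h4 : ∀ᵐ ω ∂μ, ∀ κ δ r : ℚ, 0 ≤ κ → κ < 1 → 0 < δ → 0 < r → r ≤ 1 → 1 - κ < r ^ 2 → ∃ N0 : ℕ, ∀ N : ℕ, N0 ≤ N →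
      ∃ a : ℝ, ∀ x : ℝ, a ≤ x → x ≤ a + (N : ℝ) ^ (-(κ : ℝ)) → ‖F ω N x‖ < (r : ℝ) * (1 + δ) * tg N := by
    rw [ae_all_iff]; intro κ
    rw [ae_all_iff]; intro δ
    rw [ae_all_iff]; intro r
    simp only [eventually_imp_distrib_left]
    intro g1 g2 g3 g4 g5 g6
    exact hA κ δ r (by exact_mod_cast g1) (by exact_mod_cast g2) (by exact_mod_cast g3) (by exact_mod_cast g4)
      (by exact_mod_cast g5) (by exact_mod_cast g6)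
  filter_upwards [h1, h2, h3, h4] with ω k1 k2 k3 k4
  intro κ hκ0 hκ1 O hO
  exact scale99 (F ω) k1 k2 k3 k4 κ hκ0 hκ1 O hO

end Pool.Agent.Helper11.EA
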